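import Pool.Agent.H6.STR.Cmp
import Pool.Agent.H62.V0C.Cfb
import Pool.Agent.H83.OWN.AddC

/-!
# The codes of the side path from its own jets of the orders `0`, `1`

`CyC`: the class form of `CyStmt` (the orders `≥ 2` have few bits only for a class of events). `cy_of`:
the theorem, from (K9).
-/

set_option autoImplicit false

namespace Pool.STR73

open Finset Real MvPolynomial
open Pool.Agent.H49.Ent Pool.Agent.H32.Dense
open Pool.STK hiding pr2
open Pool.KA Pool.KSAT Pool.K2S Pool.PB Pool.S6C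
open Pool.GEN Pool.CHT Pool.CHX Pool.ISO Pool.LA91 Pool.AVG71 Pool.AVG5 Pool.D2F2 Pool.AVG57
open Pool.RCD Pool.AVG96 Pool.OWN68 Pool.V0F Pool.V0Q Pool.V0T
open Pool.PB.Trl (rt rt_mem t_rt)
open Pool.GRD (LbP)
open Pool.AJW (CfB)
open Pool.STR16
open Pool.STR91 (stc Kc rho_abs rho_eq near_tay)
open Pool.STR6 (rho_rt)

/-- **(E1), class form.** The codes of the path of the slope-one places from their own jets of orders
`0`, `1` and back. -/
def CyC (k : ℕ) : Prop := ∀ {m D : ℕ} {S : PCl m} {C₀ : ℝ}, TmC S C₀ →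
  (∀ (τ : ℝ) (J : ℕ) (F : Fam m J) (A : F.Ω → Prop), S.St τ J F A → 0 < Pe F.p A) →
  ∀ {b a φ E ε : ℝ} {sn : ℕ → ℝ → ℝ} {c : ℕ → Fin m} {N : ℕ → ℕ → ℝ}, 0 ≤ b → b ≤ a → a < 1 →
    (∀ l < k, 0 ≤ N l 0 ∧ N l 0 ≤ N l 1 + a ∧ N l 1 + a + φ ≤ sn l b + 2 * (a - b)) → 0 < ε →
    Bas S (fun J F A => ∀ Hb H : LnT F → ℕ → MvPolynomial (Option (Fin m)) ℝ,
      LDP F c k 1 D b a φ E sn A Hb H → ∀ B : F.Ω → Prop, Sub B A →
      1 / 2 * Pe F.p A ≤ Pe F.p B →
      ∀ G : Fin k → ℕ → ℕ, (∀ l i, G l i = ⌊(if i = 0 then N l 0 else N l 1 + a) * J⌋₊) →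
      CH (Pool.Agent.H49.Ent.cond F.p B True)
        (fun ω => vcG c k ⌊b * J⌋₊ ⌊a * J⌋₊ D G Hb (slam F ⌊a * J⌋₊ ω))
        (fun ω => (jet2 F c ⌊a * J⌋₊ H 0 k N ω, F.W ω)) ≤ ε * J ∧
      CH (Pool.Agent.H49.Ent.cond F.p B True)
        (fun ω => (jet2 F c ⌊a * J⌋₊ H 0 k N ω, F.W ω))
        (fun ω => (vcG c k ⌊b * J⌋₊ ⌊a * J⌋₊ D G Hb (slam F ⌊a * J⌋₊ ω), (F.T ω, F.Z ω))) ≤ ε * J)

/-- Two polynomials, the Taylor coefficients `0`, `1` at a point and the coefficients of order `≥ 2` at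
zero near: all coefficients are near. -/
theorem low_tay {A B : Polynomial ℝ} {d : ℕ} (hA : A.natDegree ≤ d) (hB : B.natDegree ≤ d)
    {ρ : ℝ} (hρ : |ρ| ≤ 1) {G : ℕ → ℕ} (hG : Monotone G) {s : ℝ} (hs : 0 ≤ s)
    (h2 : ∀ i, 2 ≤ i → |(2 : ℝ) ^ G i * A.coeff i - 2 ^ G i * B.coeff i| ≤ s)
    (h1 : ∀ i, i < 2 → |(2 : ℝ) ^ G i * (Polynomial.taylor ρ A).coeff i -
      2 ^ G i * (Polynomial.taylor ρ B).coeff i| ≤ s) (k : ℕ) :
    |(2 : ℝ) ^ G k * A.coeff k - 2 ^ G k * B.coeff k| ≤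
      (s + (d + 1) * 2 ^ d * s) + (d + 1) * 2 ^ d * (s + (d + 1) * 2 ^ d * s) := by
  have q0 : 0 ≤ ((d : ℝ) + 1) * 2 ^ d * s := by positivity
  have hAe : Polynomial.taylor (-ρ) (Polynomial.taylor ρ A) = A := by
    rw [Polynomial.taylor_taylor]
    simp
  have hBe : Polynomial.taylor (-ρ) (Polynomial.taylor ρ B) = B := by
    rw [Polynomial.taylor_taylor]
    simp
  have h3 : ∀ i, |(2 : ℝ) ^ G i * (Polynomial.taylor ρ A).coeff i -
      2 ^ G i * (Polynomial.taylor ρ B).coeff i| ≤ s + (d + 1) * 2 ^ d * s := fun i => by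
    by_cases hi : i < 2
    · exact (h1 i hi).trans (by linarith)
    · exact near_tay hA hB hρ hG hs i fun j hj => h2 j (by omega)
  have h4 := near_tay (A := Polynomial.taylor ρ A) (B := Polynomial.taylor ρ B) (d := d)
    (by rw [Polynomial.natDegree_taylor]; exact hA) (by rw [Polynomial.natDegree_taylor]; exact hB)
    (ρ := -ρ) (by rw [abs_neg]; exact hρ) hG (by linarith) k fun i _ => h3 i
  rw [hAe, hBe] at h4
  exact h4

/-- The bounded error. -/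
noncomputable def kC (d : ℕ) : ℝ :=
  (2 + (d + 1) * 2 ^ d * 2) + (d + 1) * 2 ^ d * (2 + (d + 1) * 2 ^ d * 2) + 1

/-- The scale of the velocity: from the relative unit to the true one. -/
theorem sc_up {g n : ℕ} {y z J : ℝ} (hg : (g : ℝ) ≤ (y + z) * J) (hn : z * J < n + 1) :
    (2 : ℝ) ^ g / 2 ^ n ≤ 2 * 2 ^ (y * J) := by
  rw [div_le_iff₀ (by positivity), ← Real.rpow_natCast 2 g, ← Real.rpow_natCast 2 n]
  have e1 : (2 : ℝ) * 2 ^ (y * J) * 2 ^ (n : ℝ) = 2 ^ (1 + y * J + n) := by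
    rw [Real.rpow_add (by norm_num), Real.rpow_add (by norm_num), Real.rpow_one]
  rw [e1]
  exact Real.rpow_le_rpow_of_exponent_le one_le_two (by linarith)

theorem sc_dn {g n : ℕ} {y z J : ℝ} (hg : (y + z) * J < g + 1) (hn : (n : ℝ) ≤ z * J) :
    (2 : ℝ) ^ (y * J) ≤ 2 * (2 ^ g / 2 ^ n) := by
  have e0 : (2 : ℝ) * (2 ^ g / 2 ^ n) = 2 ^ (1 + (g : ℝ) - n) := by
    rw [Real.rpow_sub (by norm_num), Real.rpow_add (by norm_num), Real.rpow_one,
      Real.rpow_natCast, Real.rpow_natCast]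
    ring
  rw [e0]
  exact Real.rpow_le_rpow_of_exponent_le one_le_two (by linarith)

section

variable {m J : ℕ}

/-- **The law level.** -/
theorem cy_law {F : Fam m J} {c : ℕ → Fin m} {k D : ℕ} {b a : ℝ}
    {N : ℕ → ℕ → ℝ} {Hb H : LnT F → ℕ → MvPolynomial (Option (Fin m)) ℝ} {p : F.Ω → ℝ}
    (hp : IsLaw p) (hb0 : 0 ≤ b) (hba : b ≤ a) (ha1 : a ≤ 1)
    (hd : ∀ l < k, ∀ s, (Hb s l).totalDegree ≤ D)
    (hH : ∀ ω, ∀ l < k, H (slam F ⌊a * J⌋₊ ω) l = Hb (slam F ⌊b * J⌋₊ ω) l)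
    (hN : ∀ l < k, 0 ≤ N l 0 ∧ N l 0 ≤ N l 1 + a) {G : Fin k → ℕ → ℕ}
    (hG : ∀ l i, G l i = ⌊(if i = 0 then N l 0 else N l 1 + a) * J⌋₊) {e : ℝ}
    (hc : ∀ l : Fin k, CH p (Pool.AVG71.cod F ⌊a * J⌋₊ 2 (D + 1) (2 ^ G l 1) (c l)
      (fun s => upw ⌊b * J⌋₊ ⌊a * J⌋₊ s) (fun s => Hb s l)) F.W ≤ e) :
    CH p (fun ω => vcG c k ⌊b * J⌋₊ ⌊a * J⌋₊ D G Hb (slam F ⌊a * J⌋₊ ω))
        (fun ω => (jet2 F c ⌊a * J⌋₊ H 0 k N ω, F.W ω)) ≤
      k * e + (k * (D + 2)) * Real.log (2 * (⌈kC (D + 1)⌉₊ : ℕ) + 1) ∧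
    CH p (fun ω => (jet2 F c ⌊a * J⌋₊ H 0 k N ω, F.W ω))
        (fun ω => (vcG c k ⌊b * J⌋₊ ⌊a * J⌋₊ D G Hb (slam F ⌊a * J⌋₊ ω), (F.T ω, F.Z ω))) ≤
      (k * 2) * Real.log (2 * (⌈kC (D + 1)⌉₊ : ℕ) + 1) := by
  classical
  have p0 := hp.nonneg
  have hJ0 : (0 : ℝ) ≤ J := Nat.cast_nonneg J
  obtain ⟨n, hn⟩ : ∃ n : ℕ, ⌊a * (J : ℝ)⌋₊ = n := ⟨_, rfl⟩
  obtain ⟨n', hn'⟩ : ∃ n' : ℕ, ⌊b * (J : ℝ)⌋₊ = n' := ⟨_, rfl⟩
  have a0 : 0 ≤ a := hb0.trans hba
  have hnn : n' ≤ n := by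
    rw [← hn, ← hn']
    exact Nat.floor_le_floor (mul_le_mul_of_nonneg_right hba hJ0)
  have hnJ : n ≤ J := by
    have e1 : (n : ℝ) ≤ a * J := by rw [← hn]; exact Nat.floor_le (mul_nonneg a0 hJ0)
    have e2 : a * (J : ℝ) ≤ 1 * J := mul_le_mul_of_nonneg_right ha1 hJ0
    have e3 : (n : ℝ) ≤ J := by linarith
    exact_mod_cast e3
  have n1 : (n : ℝ) ≤ a * J := by rw [← hn]; exact Nat.floor_le (mul_nonneg a0 hJ0)
  have n2 : a * J < n + 1 := by rw [← hn]; exact Nat.lt_floor_add_one _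
  rw [hn, hn'] at hc ⊢
  rw [hn, hn'] at hH
  -- the paths
  obtain ⟨P, hP⟩ : ∃ P : LnT F → Fin k → Polynomial ℝ, P = pV c k n' n Hb := ⟨_, rfl⟩
  have hPd : ∀ s i, (P s i).natDegree ≤ D + 1 := fun s i => by
    rw [hP]
    unfold pV oP
    exact natDegree_dv n (G := fun s (_ : Fin m) => Hb (upw n' n s) i)
      (fun s _ => hd i i.2 _) _ s
  have hmono : ∀ l, Monotone (G l) := fun l i j hij => by
    obtain ⟨h1, h2⟩ := hN l l.2
    rw [hG, hG]
    refine Nat.floor_le_floor (mul_le_mul_of_nonneg_right ?_ hJ0)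
    by_cases hi : i = 0
    · by_cases hj : j = 0
      · simp [hi, hj]
      · simp only [hi, hj, if_true, if_false]
        exact h2
    · have hj : j ≠ 0 := by omega
      simp [hi, hj]
  have hG2 : ∀ l : Fin k, ∀ i, 1 ≤ i → G l i = G l 1 := fun l i hi => by
    rw [hG, hG, if_neg (by omega), if_neg one_ne_zero]
  -- Taylor coefficients
  have ht : ∀ (ω : F.Ω) (l : Fin k) (i : ℕ),
      (Polynomial.taylor (rho F n ω) (P (slam F n ω) l)).coeff i =
        ojet F (c l) i (H (slam F n ω) l) ω / ((i.factorial : ℝ) * (2 ^ n) ^ i) := by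
    intro ω l i
    rw [hP]
    unfold pV oP
    rw [rho_rt, ojet_tay F hnJ, hH ω l l.2]
    show ojet F (c l) i (Hb (upw n' n (slam F n ω)) l) ω / _ = _
    rw [upw_slam F hnn hnJ]
  have ht0 : ∀ (ω : F.Ω) (l : Fin k), (Polynomial.taylor (rho F n ω) (P (slam F n ω) l)).coeff 0 =
      ojet F (c l) 0 (H (slam F n ω) l) ω := fun ω l => by
    rw [ht]
    simp
  have ht1 : ∀ (ω : F.Ω) (l : Fin k), (Polynomial.taylor (rho F n ω) (P (slam F n ω) l)).coeff 1 =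
      ojet F (c l) 1 (H (slam F n ω) l) ω / 2 ^ n := fun ω l => by
    rw [ht]
    simp
  -- the numbers
  have g0 : ∀ l : Fin k, ((G l 0 : ℕ) : ℝ) ≤ N l 0 * J ∧ N l 0 * J < G l 0 + 1 := fun l => by
    obtain ⟨h1, h2⟩ := hN l l.2
    rw [hG, if_pos rfl]
    exact ⟨Nat.floor_le (mul_nonneg h1 hJ0), Nat.lt_floor_add_one _⟩
  have g1 : ∀ l : Fin k, ((G l 1 : ℕ) : ℝ) ≤ (N l 1 + a) * J ∧ (N l 1 + a) * J < G l 1 + 1 :=
    fun l => by
      obtain ⟨h1, h2⟩ := hN l l.2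
      rw [hG, if_neg one_ne_zero]
      exact ⟨Nat.floor_le (mul_nonneg (h1.trans h2) hJ0), Nat.lt_floor_add_one _⟩
  have pw : ∀ (g : ℕ) (x : ℝ), (g : ℝ) ≤ x → (2 : ℝ) ^ g ≤ 2 ^ x := fun g x h => by
    rw [← Real.rpow_natCast]
    exact Real.rpow_le_rpow_of_exponent_le one_le_two h
  have pw' : ∀ (g : ℕ) (x : ℝ), x < g + 1 → (2 : ℝ) ^ x ≤ 2 * 2 ^ g := fun g x h => by
    have e1 : (2 : ℝ) * 2 ^ g = 2 ^ (1 + (g : ℝ)) := by
      rw [Real.rpow_add (by norm_num), Real.rpow_one, Real.rpow_natCast]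
    rw [e1]
    exact Real.rpow_le_rpow_of_exponent_le one_le_two (by linarith)
  have fl1 : ∀ {x y : ℝ}, ⌊x⌋ = ⌊y⌋ → |x - y| ≤ 1 := fun {x y} h => Pool.STR16.fl_near1 h
  have kC0 : (0 : ℝ) ≤ ((D + 1 : ℕ) + 1) * 2 ^ (D + 1) := by positivity
  obtain ⟨d, hd'⟩ : ∃ d : ℕ, d = D + 1 := ⟨_, rfl⟩
  have hK : kC (D + 1) ≤ (⌈kC (D + 1)⌉₊ : ℕ) := Nat.le_ceil _
  constructor
  · -- the codes of order `≥ 2`
    obtain ⟨C2, hC2⟩ : ∃ C2 : F.Ω → Fin k → Fin (D + 1 + 1) → ℤ, C2 = fun ω l =>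
      Pool.AVG71.cod F n 2 (D + 1) (2 ^ G l 1) (c l) (fun s => upw n' n s) (fun s => Hb s l) ω :=
      ⟨_, rfl⟩
    have s1 : CH p C2 (fun ω => (jet2 F c n H 0 k N ω, F.W ω)) ≤ k * e := by
      have t1 : CH p C2 (fun ω => (jet2 F c n H 0 k N ω, F.W ω)) ≤ CH p C2 F.W :=
        CH_mono_cond p0 fun ω ω' _ _ h => (Prod.ext_iff.1 h).2
      have t2 : CH p C2 F.W ≤ ∑ l : Fin k, CH p (fun ω => C2 ω l) F.W :=
        Pool.KS3.CH_pi_le p0 C2 F.W
      have t3 : ∀ l : Fin k, CH p (fun ω => C2 ω l) F.W ≤ e := fun l => by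
        rw [hC2]
        exact hc l
      have t4 : ∑ l : Fin k, CH p (fun ω => C2 ω l) F.W ≤ ∑ _l : Fin k, e :=
        Finset.sum_le_sum fun l _ => t3 l
      rw [Finset.sum_const, Finset.card_univ, Fintype.card_fin, nsmul_eq_mul] at t4
      exact t1.trans (t2.trans t4)
    have s2 : CH p (fun ω => vcG c k n' n D G Hb (slam F n ω))
        (fun ω => (C2 ω, (jet2 F c n H 0 k N ω, F.W ω))) ≤
        (k * (D + 2)) * Real.log (2 * (⌈kC (D + 1)⌉₊ : ℕ) + 1) := by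
      refine (Pool.STR91.ch_near hp _ _ (K := ⌈kC (D + 1)⌉₊) fun ω ω' hω hω' h x => ?_).trans
        (le_of_eq ?_)
      · obtain ⟨e1, e2⟩ := Prod.ext_iff.1 h
        obtain ⟨e3, e4⟩ := Prod.ext_iff.1 e2
        have eT : F.T ω = F.T ω' := (Prod.ext_iff.1 e4).1
        have ej : ∀ j, j ≤ 1 → ⌊(2 : ℝ) ^ (N x.1 j * J) *
            ojet F (c x.1) j (H (slam F n ω) x.1) ω⌋ = ⌊(2 : ℝ) ^ (N x.1 j * J) *
            ojet F (c x.1) j (H (slam F n ω') x.1) ω'⌋ := fun j hj => by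
          have e5 : jet2 F c n H 0 k N ω x.1 j = jet2 F c n H 0 k N ω' x.1 j :=
            congrFun (congrFun e3 x.1) j
          unfold jet2 at e5
          rw [if_pos ⟨Nat.zero_le _, x.1.2, hj⟩, if_pos ⟨Nat.zero_le _, x.1.2, hj⟩] at e5
          exact e5
        have k1 := low_tay (A := P (slam F n ω) x.1) (B := P (slam F n ω') x.1) (d := D + 1)
          (hPd _ _) (hPd _ _) (rho_abs (a := n) ω) (hmono x.1) (s := 2) (by norm_num)
          (fun i hi => by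
            by_cases hiD : i ≤ D + 1
            · have e5 := congrFun (congrFun e1 x.1) ⟨i, Nat.lt_succ_of_le hiD⟩
              rw [hC2] at e5
              unfold Pool.AVG71.cod at e5
              simp only [if_pos hi] at e5
              have e6 := fl1 e5
              rw [hG2 x.1 i (by omega), hP]
              unfold pV oP
              exact e6.trans (by norm_num)
            · rw [Polynomial.coeff_eq_zero_of_natDegree_lt (lt_of_le_of_lt (hPd _ _) (by omega)),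
                Polynomial.coeff_eq_zero_of_natDegree_lt (lt_of_le_of_lt (hPd _ _) (by omega)),
                sub_self, abs_zero]
              norm_num)
          (fun i hi => by
            have hi' : i = 0 ∨ i = 1 := by omega
            rcases hi' with rfl | rfl
            · have e5 := fl1 (ej 0 (by norm_num))
              rw [ht0 ω, rho_eq (a := n) eT, ht0 ω', ← mul_sub, abs_mul,
                abs_of_pos (by positivity)]
              rw [← mul_sub, abs_mul, abs_of_pos (Real.rpow_pos_of_pos (by norm_num) _)] at e5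
              refine (mul_le_mul_of_nonneg_right (pw _ _ (g0 x.1).1) (abs_nonneg _)).trans
                (e5.trans (by norm_num))
            · have e5 := fl1 (ej 1 le_rfl)
              rw [ht1 ω, rho_eq (a := n) eT, ht1 ω', ← mul_sub, ← sub_div, abs_mul, abs_div,
                abs_of_pos (show (0 : ℝ) < 2 ^ G x.1 1 by positivity),
                abs_of_pos (show (0 : ℝ) < 2 ^ n by positivity)]
              rw [← mul_sub, abs_mul, abs_of_pos (Real.rpow_pos_of_pos (by norm_num) _)] at e5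
              have e6 := sc_up (g1 x.1).1 n2
              have e7 : (2 : ℝ) ^ G x.1 1 * (|ojet F (c x.1) 1 (H (slam F n ω) x.1) ω -
                  ojet F (c x.1) 1 (H (slam F n ω') x.1) ω'| / 2 ^ n) =
                  2 ^ G x.1 1 / 2 ^ n * |ojet F (c x.1) 1 (H (slam F n ω) x.1) ω -
                  ojet F (c x.1) 1 (H (slam F n ω') x.1) ω'| := by ring
              rw [e7]
              refine (mul_le_mul_of_nonneg_right e6 (abs_nonneg _)).trans ?_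
              rw [mul_assoc]
              linarith)
          x.2
        have k2 := Pool.STR91.fl_near2 k1
        have k3 : ((2 : ℝ) + ((D + 1 : ℕ) + 1) * 2 ^ (D + 1) * 2) + ((D + 1 : ℕ) + 1) * 2 ^ (D + 1) *
          (2 + ((D + 1 : ℕ) + 1) * 2 ^ (D + 1) * 2) + 1 = kC (D + 1) := by
          unfold kC
          push_cast
          ring
        rw [k3] at k2
        have k4 := k2.trans hK
        rw [hP] at k4
        show |vcG c k n' n D G Hb (slam F n ω) x - vcG c k n' n D G Hb (slam F n ω') x| ≤ _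
        unfold vcG stc
        rw [← Int.cast_sub, ← Int.cast_abs] at k4
        exact_mod_cast k4
      · rw [Fintype.card_prod, Fintype.card_fin, Fintype.card_fin]
        push_cast
        ring
    have s3 := CH_le_add p0 (fun ω => vcG c k n' n D G Hb (slam F n ω)) C2
      (fun ω => (jet2 F c n H 0 k N ω, F.W ω))
    linarith
  · -- back
    obtain ⟨U, hU⟩ : ∃ U : F.Ω → Fin k × Fin 2 → ℤ, U = fun ω x =>
      ⌊(2 : ℝ) ^ (N x.1 x.2 * J) * ojet F (c x.1) x.2 (H (slam F n ω) x.1) ω⌋ := ⟨_, rfl⟩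
    have s1 : CH p (fun ω => (jet2 F c n H 0 k N ω, F.W ω))
        (fun ω => (vcG c k n' n D G Hb (slam F n ω), (F.T ω, F.Z ω))) ≤
        CH p U (fun ω => (vcG c k n' n D G Hb (slam F n ω), (F.T ω, F.Z ω))) := by
      refine CH_mono_left p0 fun ω ω' _ _ h => ?_
      obtain ⟨e1, e2⟩ := Prod.ext_iff.1 h
      have eW := (Prod.ext_iff.1 e2).2
      refine Prod.ext ?_ eW
      funext l j'
      show jet2 F c n H 0 k N ω l j' = jet2 F c n H 0 k N ω' l j'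
      unfold jet2
      by_cases hl : 0 ≤ l ∧ l < k ∧ j' ≤ 1
      · rw [if_pos hl, if_pos hl]
        have e3 := congrFun e1 (⟨l, hl.2.1⟩, ⟨j', by omega⟩)
        rw [hU] at e3
        exact e3
      · rw [if_neg hl, if_neg hl]
    refine s1.trans ((Pool.STR91.ch_near hp _ _ (K := ⌈kC (D + 1)⌉₊)
      fun ω ω' hω hω' h x => ?_).trans (le_of_eq ?_))
    · obtain ⟨e1, e2⟩ := Prod.ext_iff.1 h
      have eT : F.T ω = F.T ω' := (Prod.ext_iff.1 e2).1
      have k1 := near_tay (A := P (slam F n ω) x.1) (B := P (slam F n ω') x.1) (d := D + 1)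
        (hPd _ _) (hPd _ _) (rho_abs (a := n) ω) (hmono x.1) (s := 1) zero_le_one x.2
        (fun i _ => by
          by_cases hiD : i ≤ D + 1
          · have e5 := congrFun e1 (x.1, ⟨i, Nat.lt_succ_of_le hiD⟩)
            unfold vcG stc at e5
            rw [← hP] at e5
            exact fl1 e5
          · rw [Polynomial.coeff_eq_zero_of_natDegree_lt (lt_of_le_of_lt (hPd _ _) (by omega)),
              Polynomial.coeff_eq_zero_of_natDegree_lt (lt_of_le_of_lt (hPd _ _) (by omega)),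
              sub_self, abs_zero]
            exact zero_le_one)
      have k2 : |(2 : ℝ) ^ (N x.1 x.2 * J) * ojet F (c x.1) x.2 (H (slam F n ω) x.1) ω -
          2 ^ (N x.1 x.2 * J) * ojet F (c x.1) x.2 (H (slam F n ω') x.1) ω'| ≤
          2 * (1 + ((D + 1 : ℕ) + 1) * 2 ^ (D + 1) * 1) := by
        have hx : (x.2 : ℕ) = 0 ∨ (x.2 : ℕ) = 1 := by omega
        rcases hx with hx | hx
        · rw [hx] at k1 ⊢
          rw [ht0 ω, rho_eq (a := n) eT, ht0 ω', ← mul_sub, abs_mul,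
            abs_of_pos (by positivity)] at k1
          rw [← mul_sub, abs_mul, abs_of_pos (Real.rpow_pos_of_pos (by norm_num) _)]
          refine (mul_le_mul_of_nonneg_right (pw' _ _ (g0 x.1).2) (abs_nonneg _)).trans ?_
          rw [mul_assoc]
          linarith
        · rw [hx] at k1 ⊢
          rw [ht1 ω, rho_eq (a := n) eT, ht1 ω', ← mul_sub, ← sub_div, abs_mul, abs_div,
            abs_of_pos (show (0 : ℝ) < 2 ^ G x.1 1 by positivity),
            abs_of_pos (show (0 : ℝ) < 2 ^ n by positivity)] at k1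
          rw [← mul_sub, abs_mul, abs_of_pos (Real.rpow_pos_of_pos (by norm_num) _)]
          have e6 := sc_dn (g1 x.1).2 n1
          have e7 : (2 : ℝ) ^ G x.1 1 * (|ojet F (c x.1) 1 (H (slam F n ω) x.1) ω -
              ojet F (c x.1) 1 (H (slam F n ω') x.1) ω'| / 2 ^ n) =
              2 ^ G x.1 1 / 2 ^ n * |ojet F (c x.1) 1 (H (slam F n ω) x.1) ω -
              ojet F (c x.1) 1 (H (slam F n ω') x.1) ω'| := by ring
          rw [e7] at k1
          refine (mul_le_mul_of_nonneg_right e6 (abs_nonneg _)).trans ?_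
          rw [mul_assoc]
          linarith
      have k3 := Pool.STR91.fl_near2 k2
      have k4 : (2 : ℝ) * (1 + ((D + 1 : ℕ) + 1) * 2 ^ (D + 1) * 1) + 1 ≤ kC (D + 1) := by
        unfold kC
        have q1 : (0 : ℝ) ≤ ((D + 1 : ℕ) + 1) * 2 ^ (D + 1) *
          (2 + ((D + 1 : ℕ) + 1) * 2 ^ (D + 1) * 2) := by positivity
        linarith
      have k5 := (k3.trans k4).trans hK
      rw [hU]
      rw [← Int.cast_sub, ← Int.cast_abs] at k5
      exact_mod_cast k5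
    · rw [Fintype.card_prod, Fintype.card_fin, Fintype.card_fin]
      push_cast
      ring

end

/-- **(E1), class form.** -/
theorem cy_of (k : ℕ) : CyC k := by
  intro m D S C₀ htm hpos b a φ E ε sn c N hb0 hba ha1 hN hε
  obtain ⟨K₁, hK₁⟩ : ∃ K₁ : ℝ, K₁ = Real.log (2 * (⌈kC (D + 1)⌉₊ : ℕ) + 1) := ⟨_, rfl⟩
  have hK₁0 : 0 ≤ K₁ := by
    rw [hK₁]
    refine Real.log_nonneg ?_
    have : (0 : ℝ) ≤ ((⌈kC (D + 1)⌉₊ : ℕ) : ℝ) := Nat.cast_nonneg _
    linarith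
  obtain ⟨ε₁, hε₁⟩ : ∃ ε₁ : ℝ, ε₁ = ε / (2 * (k + 1)) := ⟨_, rfl⟩
  have hε₁0 : 0 < ε₁ := by rw [hε₁]; positivity
  have hk9 : ∀ l < k, Bas S (fun J F A => ∀ Hb H : LnT F → ℕ → MvPolynomial (Option (Fin m)) ℝ,
      LDP F c k 1 D b a φ E sn A Hb H → ∀ g : ℕ, (g : ℝ) ≤ (N l 1 + a) * J →
      ⌊a * (J : ℝ)⌋₊ ≤ J →
      CH (Pool.Agent.H49.Ent.cond F.p A True) (Pool.AVG71.cod F ⌊a * J⌋₊ 2 (D + 1) (2 ^ g) (c l)
        (fun s => upw ⌊b * J⌋₊ ⌊a * J⌋₊ s) (fun s => Hb s l)) F.W ≤ ε₁ * J) := by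
    intro l hl
    obtain ⟨-, -, h3⟩ := hN l hl
    obtain ⟨e₀, he₀, H0⟩ := Pool.V0C62.k9_stmt htm hpos D ((range l).image c) (c l) (E := E)
      (p := sn l b - φ) (N := N l 1 + a) hb0 hba ha1 (by linarith) hε₁0
    refine Bas.mono 0 H0 ?_
    rintro J - F A H1 Hb H L g hg haJ
    obtain ⟨V, z, z', G, h1, h2⟩ := L.lb l hl
    have hJ : (0 : ℝ) ≤ J := Nat.cast_nonneg J
    have h3 : LbP F ((range l).image c) (c l) D J ⌊b * J⌋₊ ⌊(sn l b - φ - e₀) * J⌋₊ A z z' G :=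
      h1.mono (Finset.Subset.refl _) le_rfl (Nat.floor_le_floor
        (mul_le_mul_of_nonneg_right (by linarith) hJ))
    have h4 := H1 V z z' G h3 (cfb_of (L.cb l hl) h2) ⌊a * J⌋₊ (2 ^ g) le_rfl haJ (by positivity)
      (by
        rw [← Real.rpow_natCast]
        exact Real.rpow_le_rpow_of_exponent_le one_le_two hg)
    have hbw' : ⌊b * (J : ℝ)⌋₊ ≤ ⌊a * J⌋₊ :=
      Nat.floor_le_floor (mul_le_mul_of_nonneg_right hba hJ)
    have e1 := cod_congr (F := F) (W := ⌊a * J⌋₊) (j₀ := 2) (D := D + 1) (σ := 2 ^ g) (κ := c l)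
      (z := fun s => upw ⌊b * J⌋₊ ⌊a * J⌋₊ s) (z' := fun s => z' (upw ⌊b * J⌋₊ ⌊a * J⌋₊ s))
      (G := fun s => Hb s l) (G' := G) (fun ω => by
        show Hb (upw ⌊b * J⌋₊ ⌊a * J⌋₊ (slam F ⌊a * J⌋₊ ω)) l =
          G (z' (upw ⌊b * J⌋₊ ⌊a * J⌋₊ (slam F ⌊a * J⌋₊ ω)))
        rw [h2])
    rw [e1]
    exact h4
  have hall := Bas.all k hk9
  have hev := Pool.OWN83.bas_ev hall (c := 1 / 2) (by norm_num)
  obtain ⟨J₁, hJ₁⟩ := exists_nat_ge ((k * (D + 2) + k * 2 + 1) * K₁ / (ε / 2))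
  refine Bas.mono J₁ (hev.and (pos_bas hpos)) ?_
  rintro J hJ F A ⟨HA, hA0⟩ Hb H L B hBA hPB G hG
  have hJ0 : (0 : ℝ) ≤ J := Nat.cast_nonneg J
  have hB0 : 0 < Pe F.p B := by linarith
  have hlaw := isLaw_cond F.isLaw hB0
  have haJ : ⌊a * (J : ℝ)⌋₊ ≤ J := by
    have e1 : a * (J : ℝ) ≤ 1 * J := mul_le_mul_of_nonneg_right ha1.le hJ0
    rw [one_mul] at e1
    exact Nat.floor_le_of_le e1
  have LB : LDP F c k 1 D b a φ E sn B Hb H := by
    refine ⟨fun l hl => ?_, fun l h1 h2 => ?_, fun l hl ω hω => L.cb l hl ω (hBA ω hω),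
      fun l h1 h2 ω hω => L.cw l h1 h2 ω (hBA ω hω), L.hb⟩
    · obtain ⟨V, z, z', G, h1, h2⟩ := L.lb l hl
      exact ⟨V, z, z', G, h1.sub hBA, h2⟩
    · obtain ⟨V, z, z', G, h3, h4⟩ := L.lt l h1 h2
      exact ⟨V, z, z', G, h3.sub hBA, h4⟩
  have hd : ∀ l < k, ∀ s, (Hb s l).totalDegree ≤ D := fun l hl s => by
    obtain ⟨V, z, z', G, h1, h2⟩ := L.lb l hl
    rw [← h2]
    exact h1.deg _
  have hc := cy_law (F := F) (c := c) (k := k) (D := D) (b := b) (a := a) (N := N) (Hb := Hb)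
    (H := H) hlaw hb0 hba ha1.le hd (fun ω l hl => L.hb ω l hl)
    (fun l hl => ⟨(hN l hl).1, (hN l hl).2.1⟩) hG (e := ε₁ * J) (fun l => by
      refine HA B hBA hPB l l.2 Hb H LB (G l 1) ?_ haJ
      rw [hG, if_neg one_ne_zero]
      refine Nat.floor_le (mul_nonneg ?_ hJ0)
      linarith [(hN l l.2).1, (hN l l.2).2.1])
  rw [← hK₁] at hc
  have hJ' : (J₁ : ℝ) ≤ J := by exact_mod_cast hJ
  have h1 := hJ₁.trans hJ'
  rw [div_le_iff₀ (by positivity)] at h1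
  have h2 : (k : ℝ) * (ε₁ * J) ≤ ε / 2 * J := by
    rw [hε₁]
    have h3 : (k : ℝ) * (ε / (2 * (k + 1))) ≤ ε / 2 := by
      rw [mul_div_assoc', div_le_div_iff₀ (by positivity) (by norm_num)]
      nlinarith
    have h4 := mul_le_mul_of_nonneg_right h3 hJ0
    linarith
  have h5 : (k * (D + 2) : ℝ) * K₁ ≤ (k * (D + 2) + k * 2 + 1) * K₁ :=
    mul_le_mul_of_nonneg_right (by linarith [(Nat.cast_nonneg k : (0 : ℝ) ≤ k)]) hK₁0
  have h6 : (k * 2 : ℝ) * K₁ ≤ (k * (D + 2) + k * 2 + 1) * K₁ :=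
    mul_le_mul_of_nonneg_right (by
      have : (0 : ℝ) ≤ (k : ℝ) * (D + 2) := by positivity
      linarith) hK₁0
  constructor
  · linarith [hc.1]
  · linarith [hc.2, mul_nonneg (half_pos hε).le hJ0]

end Pool.STR73
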