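import Pool.Agent.H6.STR.Ev
import Pool.Agent.H73.STR.Cy
import Pool.Agent.H83.OWN.AddC
import Pool.Agent.H45.EXA.Nbc

/-!
# One step of the star

`star_ofC`: `StarStmt` from the rows (`RwStmt`) and the images (`FiStmt`), by the star in own-point
codes. This is `Pool.STR6.star_of` with the class form `cy_of` in the place of its hypothesis on the codes
of the side path.
-/

set_option autoImplicit false

namespace Pool.STR73

open Finset Real MvPolynomial
open Pool.Agent.H49.Ent Pool.Agent.H32.Dense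
open Pool.STK hiding pr2
open Pool.KA Pool.KSAT Pool.K2S Pool.PB Pool.S6C
open Pool.GEN Pool.CHT Pool.CHX Pool.ISO Pool.LA91 Pool.AVG71 Pool.AVG5 Pool.D2F2 Pool.AVG57
open Pool.RCD Pool.V0F Pool.V0Q Pool.V0T
open Pool.T4C72 (BoxT)
open Pool.STR16
open Pool.STR6
open Pool.STR91 (pO ch_via stc)

/-- **One step of the star.** -/
theorem star_ofC {k : ℕ} (hR : RwStmt k) (hF : FiStmt k) {h s : ℝ} (h0 : 0 < h)
    (h1 : h ≤ 1) (hs : 1 ≤ s) : StarStmt k h s := by
  intro j D₁ hj _ δ hδ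
  obtain ⟨CR, hCR, HR⟩ := hR
  obtain ⟨CF, hCF, HF⟩ := hF
  obtain ⟨a₁, κ₁, ϖ₁, ha₁, hκ₁, hϖ₁, X₀, HS⟩ := Pool.STR91.star_law (h := h) (δ := δ / 4) (j := j)
    h0 h1 hj (by positivity) (D₁ + 1)
  obtain ⟨ϖ, hϖe⟩ : ∃ ϖ : ℝ, ϖ = min (min ϖ₁ (1 / 4)) (min (κ₁ / 64) (δ / 64)) := ⟨_, rfl⟩
  have w0 : 0 < ϖ := by
    rw [hϖe]
    exact lt_min (lt_min hϖ₁ (by norm_num)) (lt_min (by positivity) (by positivity))
  have w1 : ϖ ≤ ϖ₁ := by rw [hϖe]; exact (min_le_left _ _).trans (min_le_left _ _)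
  have w2 : ϖ ≤ 1 / 4 := by rw [hϖe]; exact (min_le_left _ _).trans (min_le_right _ _)
  have w3 : ϖ ≤ κ₁ / 64 := by rw [hϖe]; exact (min_le_right _ _).trans (min_le_left _ _)
  have w4 : ϖ ≤ δ / 64 := by rw [hϖe]; exact (min_le_right _ _).trans (min_le_right _ _)
  obtain ⟨κ₀, hκ₀e⟩ : ∃ κ₀ : ℝ, κ₀ = min (κ₁ / (16 * CF)) (δ / 16) := ⟨_, rfl⟩
  have hCF0 : 0 < CF := by linarith
  have q0 : 0 < κ₀ := by rw [hκ₀e]; exact lt_min (by positivity) (by positivity)
  have q1 : CF * κ₀ ≤ κ₁ / 16 := by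
    have e1 : κ₀ ≤ κ₁ / (16 * CF) := by rw [hκ₀e]; exact min_le_left _ _
    rw [le_div_iff₀ (by positivity)] at e1
    linarith
  have q1' : κ₀ ≤ κ₁ / 16 := by
    have e1 : 1 * κ₀ ≤ CF * κ₀ := mul_le_mul_of_nonneg_right hCF q0.le
    linarith
  have q2 : κ₀ ≤ δ / 16 := by rw [hκ₀e]; exact min_le_right _ _
  refine ⟨κ₀, CR + CF + 2, q0, by linarith, ?_⟩
  intro m D S c sn sp G b o w u Λ φ' e φ lam hB hφ a x x' X X' Ec R e₀ ρ₀ κ room N haG hwa hxG hax
    hxw hX0 hXX hCφ hκ hκ0 hΛ hab hRo hro hx'G hax' hx'w hx'sn hN hImN hImU hrn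
  have L := hB.lad
  have f0 : 0 < φ' := L.φ0
  have f1 : 0 < φ := lt_of_lt_of_le f0 hφ
  have u0 := hB.u0
  have cφ : (CR + CF + 2) * φ = CR * φ + CF * φ + 2 * φ := by ring
  have cu : (CR + CF + 2) * u = CR * u + CF * u + 2 * u := by ring
  have p1 : 0 ≤ CR * φ := by positivity
  have p2 : 0 ≤ CF * φ := by positivity
  have p3 : 0 ≤ CR * u := by positivity
  have p4 : 0 ≤ CF * u := by positivity
  have sw : 0 ≤ s * (a - w) := mul_nonneg (by linarith) (by linarith)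
  rw [cφ] at hCφ hΛ hab hRo hro
  rw [cu] at hΛ hab
  simp only [cφ] at hx'sn hN
  have lu : 0 ≤ Λ * u := by linarith
  have ba : b ≤ a := by linarith [hB.bw]
  have ao : a ≤ o := by linarith [hB.wo]
  have a0 : 0 ≤ a := by linarith [hB.b0]
  have a1 : a ≤ 1 := by linarith [hB.o1]
  have x1 : x ≤ 1 := by linarith [hB.o1, hB.wo]
  have x'o : x' ≤ o := by linarith [hB.wo]
  have d0 : 0 < X' - X := by linarith
  have st : ∀ l, k ≤ l → l ≤ k + 1 → Λ * u - φ' ≤ sn l a := fun l l1 l2 => by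
    have e1 := L.st l l1 l2 b L.bG a haG le_rfl ba ao
    have e2 := (hB.room l l2).1
    linarith
  have sup : ∀ l, k ≤ l → l ≤ k + 1 → sn l x' ≤ 1 - Λ * u + φ' := fun l l1 l2 => by
    have e1 := L.st l l1 l2 x' hx'G o L.oG (by linarith) x'o le_rfl
    have e2 := (hB.room l l2).2
    linarith
  have fl : ∀ l < k, Λ * u - 2 * φ' ≤ sn l a ∧ sn l a ≤ 1 - Λ * u + φ' := fun l hl => by
    have e1 := abs_le.1 (L.fl l hl a haG ba ao)
    have e2 := abs_le.1 (L.fl l hl b L.bG le_rfl (ba.trans ao))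
    have e3 := hB.room l (by omega)
    constructor <;> linarith [e1.1, e1.2, e2.1, e2.2, e3.1, e3.2]
  have BR := HR (D₁ := D₁) hB hs hφ (a := a) (X := X) (X' := X') (Ec := Ec) (R := R)
    (ε := κ₁ / 8 * (X' - X)) (ϖ := ϖ) haG hwa hX0 hXX (by linarith) (by linarith) (by linarith)
    (by positivity) w0 hrn
  have s0 := hx'sn 0 (by norm_num)
  have s1 := hx'sn 1 le_rfl
  have BF := HF (D := D₁) L hφ (a := a) (X := X) (X' := X') (x' := x') (Ec := Ec) (R := R)
    (e₀ := e₀) (ρ₀ := ρ₀) (κ := κ) (room := room) haG ba hX0 hXX hx'G hax' x'o hκ0 (by linarith)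
    (fun l hl => by linarith [hx'sn l hl])
    (by
      have e1 := sup k le_rfl (by omega)
      have e2 : sn (k + 0) a = sn k a := rfl
      have e3 : sn (k + 0) x' = sn k x' := rfl
      linarith)
    (by
      have e1 := sup (k + 1) (by omega) le_rfl
      linarith) (by linarith [hB.o1])
    (fun l hl => by linarith [(fl l hl).2]) hImN hImU (η := κ₁ / 16 * (X' - X)) (ϖ := ϖ₁)
    (by positivity) hϖ₁ a₁ ha₁
  obtain ⟨C₀, htm⟩ := L.tm
  have BT := Pool.OWN83.bas_ev (Pool.GRW.tmc_bas htm (ψ := κ₁ / 4 * (X' - X)) (by positivity))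
    (c := 1 / 2) (by norm_num)
  have a1' : a < 1 := by linarith [hB.o1]
  have BC := cy_of k htm L.pos (D := D₁) (b := b) (a := a) (φ := φ) (E := Ec)
    (ε := κ₁ / 16 * (X' - X)) (sn := sn) (c := c) (N := N) L.b0 ba a1' (fun l hl => by
      obtain ⟨e1, e2, e3⟩ := hN l hl
      refine ⟨?_, e2, e3⟩
      linarith [(fl l hl).1]) (by positivity)
  obtain ⟨cB, hcB⟩ : ∃ cB : ℝ, cB = cb (D₁ + 1 + j) := ⟨_, rfl⟩
  have cB0 : 0 ≤ cB := by rw [hcB]; exact cb_nonneg _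
  obtain ⟨T, hT⟩ : ∃ T : ℝ, T = X₀ + 4 + 16 / κ₁ * (κ₁ + 4 * cB + 1) +
    4 / δ * (cB + 1 + δ) := ⟨_, rfl⟩
  obtain ⟨J₂, hJ₂⟩ := exists_nat_ge (T / (X' - X))
  refine Bas.mono J₂ (BR.and (BF.and (BT.and (BC.and (pos_bas L.pos))))) ?_
  rintro J hJ F A ⟨GR, GF, GT, GC, hA⟩ Hb H hSt hOk y1 y2 y3 y4
  have hJ0 : (0 : ℝ) ≤ J := Nat.cast_nonneg J
  -- the numbers
  obtain ⟨v, hv⟩ : ∃ v : ℝ, v = (X' - X) * J := ⟨_, rfl⟩
  have tx : T ≤ v := by
    have e1 : (J₂ : ℝ) ≤ J := by exact_mod_cast hJ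
    have e2 := hJ₂.trans e1
    rw [div_le_iff₀ d0] at e2
    rw [hv]
    linarith
  obtain ⟨K, hK⟩ : ∃ K : ℝ, K = κ₁ / 16 * v := ⟨_, rfl⟩
  have t1 : 0 ≤ 16 / κ₁ * (κ₁ + 4 * cB + 1) := by positivity
  have t2 : 0 ≤ 4 / δ * (cB + 1 + δ) := by positivity
  have X00 : (0 : ℝ) ≤ X₀ := Nat.cast_nonneg _
  have n1 : 8 * (κ₁ + 4 * cB + 1 + K) ≤ κ₁ * v := by
    have e1 : 16 / κ₁ * (κ₁ + 4 * cB + 1) ≤ v := by linarith
    have e2 := mul_le_mul_of_nonneg_left e1 hκ₁.le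
    have e3 : κ₁ * (16 / κ₁ * (κ₁ + 4 * cB + 1)) = 16 * (κ₁ + 4 * cB + 1) := by
      field_simp
    rw [e3] at e2
    rw [hK]
    linarith
  have n2 : 4 * (cB + 1 + δ) ≤ δ * v := by
    have e1 : 4 / δ * (cB + 1 + δ) ≤ v := by linarith
    have e2 := mul_le_mul_of_nonneg_left e1 hδ.le
    have e3 : δ * (4 / δ * (cB + 1 + δ)) = 4 * (cB + 1 + δ) := by
      field_simp
    linarith
  have n3 : (X₀ : ℝ) + 4 ≤ v := by linarith
  obtain ⟨q, hq⟩ : ∃ q : ℕ, q = ⌊v⌋₊ := ⟨_, rfl⟩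
  have v0 : 0 ≤ v := by linarith
  have q3 : (q : ℝ) ≤ v := by rw [hq]; exact Nat.floor_le v0
  have q4 : v < q + 1 := by rw [hq]; exact Nat.lt_floor_add_one v
  have q5 : v / 2 ≤ q := by linarith
  have q6 : X₀ ≤ q := by
    have e1 : (X₀ : ℝ) ≤ q := by linarith
    exact_mod_cast e1
  have m1 : κ₁ * v / 2 ≤ κ₁ * q := by
    have := mul_le_mul_of_nonneg_left q5 hκ₁.le
    linarith
  obtain ⟨M, hM⟩ : ∃ M : ℝ, M = 2 * ((q : ℝ) + 3) * Real.log 2 := ⟨_, rfl⟩
  have lg1 : Real.log 2 ≤ 1 := by linarith [Real.log_two_lt_d9]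
  have lg0 : 0 ≤ Real.log 2 := Real.log_nonneg (by norm_num)
  have q00 : (0 : ℝ) ≤ q := Nat.cast_nonneg q
  have M0 : 0 ≤ M := by rw [hM]; positivity
  have M1 : M ≤ 2 * (v + 3) := by
    rw [hM]
    have e1 : 2 * ((q : ℝ) + 3) * Real.log 2 ≤ 2 * ((q : ℝ) + 3) * 1 :=
      mul_le_mul_of_nonneg_left lg1 (by positivity)
    linarith
  have m2 : ϖ * M ≤ κ₁ / 64 * (2 * (v + 3)) := mul_le_mul w3 M1 M0 (by positivity)
  have m3 : ϖ * M ≤ δ / 64 * (2 * (v + 3)) := mul_le_mul w4 M1 M0 (by positivity)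
  have m4 : κ₀ * v ≤ κ₁ / 16 * v := mul_le_mul_of_nonneg_right q1' v0
  have m5 : κ₀ * v ≤ δ / 16 * v := mul_le_mul_of_nonneg_right q2 v0
  have m6 : δ / 4 * q ≤ δ / 4 * v := mul_le_mul_of_nonneg_left q3 (by positivity)
  -- the digits
  obtain ⟨g, hg⟩ : ∃ g : Fin 2 → ℕ, g = fun i : Fin 2 =>
    ⌊(sn (k + (i : ℕ)) a + X') * J⌋₊ := ⟨_, rfl⟩
  have g1 : ∀ i : Fin 2, (g i : ℝ) ≤ (sn (k + i) a + X') * J ∧
      (sn (k + i) a + X') * J < g i + 1 := by
    intro i
    have e1 := st (k + i) (by omega) (by omega)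
    have e2 : 0 ≤ (sn (k + i) a + X') * J := mul_nonneg (by linarith) hJ0
    rw [hg]
    exact ⟨Nat.floor_le e2, Nat.lt_floor_add_one _⟩
  have g2 : ∀ i : Fin 2, |(g i : ℝ) - (sn (k + i) a + X') * J| ≤ 2 := fun i => by
    obtain ⟨e1, e2⟩ := g1 i
    rw [abs_le]
    constructor <;> linarith
  have hqv : |(q : ℝ) - (X' - X) * J| ≤ 2 := by
    rw [← hv, abs_le]
    constructor <;> linarith
  have aJ0 : 0 ≤ a * (J : ℝ) := by positivity
  obtain ⟨n, hn⟩ : ∃ n : ℕ, n = ⌊a * (J : ℝ)⌋₊ := ⟨_, rfl⟩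
  have nJ1 : (n : ℝ) ≤ a * J := by rw [hn]; exact Nat.floor_le aJ0
  have nJ2 : a * J < n + 1 := by rw [hn]; exact Nat.lt_floor_add_one _
  have hnJ : n ≤ J := by
    have e1 : a * (J : ℝ) ≤ 1 * J := mul_le_mul_of_nonneg_right a1 hJ0
    have e2 : (n : ℝ) ≤ J := by linarith
    exact_mod_cast e2
  have hqJ : q ≤ J - n := by
    have e1 : (X' - X + a) * (J : ℝ) ≤ 1 * J :=
      mul_le_mul_of_nonneg_right (by linarith [hB.o1]) hJ0
    have e2 : ((q + n : ℕ) : ℝ) ≤ J := by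
      push_cast
      rw [hv] at q3
      linarith
    have e3 : q + n ≤ J := by exact_mod_cast e2
    omega
  have gf : ∀ i : ℕ, ∀ l : Fin 2, |(g l : ℝ) - i * (n : ℕ) -
      (fun l : ℕ => sn (k + l) a + X' - i * a) l * J| ≤ i + 4 := fun i l => by
    obtain ⟨e1, e2⟩ := g1 l
    have i0 : (0 : ℝ) ≤ i := Nat.cast_nonneg i
    have e3 : 0 ≤ (i : ℝ) * (a * J - n) := mul_nonneg i0 (by linarith)
    have e4 : (i : ℝ) * (a * J - n) ≤ i * 1 := mul_le_mul_of_nonneg_left (by linarith) i0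
    have e5 : (g l : ℝ) - i * (n : ℕ) - (fun l : ℕ => sn (k + l) a + X' - i * a) l * J =
        ((g l : ℝ) - (sn (k + l) a + X') * J) + i * (a * J - n) := by
      ring
    rw [e5, abs_le]
    constructor <;> linarith
  have gc : ∀ i : ℕ, ∀ l : Fin 2, |(g l : ℝ) - q - i * (n : ℕ) -
      (fun l : ℕ => sn (k + l) a + X - i * a) l * J| ≤ i + 4 := fun i l => by
    obtain ⟨e1, e2⟩ := g1 l
    have i0 : (0 : ℝ) ≤ i := Nat.cast_nonneg i
    have e3 : 0 ≤ (i : ℝ) * (a * J - n) := mul_nonneg i0 (by linarith)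
    have e4 : (i : ℝ) * (a * J - n) ≤ i * 1 := mul_le_mul_of_nonneg_left (by linarith) i0
    have e5 : (g l : ℝ) - q - i * (n : ℕ) - (fun l : ℕ => sn (k + l) a + X - i * a) l * J =
        ((g l : ℝ) - (sn (k + l) a + X') * J) + i * (a * J - n) + (v - q) := by
      rw [hv]
      ring
    rw [e5, abs_le]
    constructor <;> linarith
  -- the points and the rows
  obtain ⟨B, Nn, υ, z, Yb, hBA, hPB, hNn, hY, hrow⟩ := GR Hb H hSt g q g2 hqv
  have hPB' : 1 / 2 * Pe F.p A ≤ Pe F.p B := by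
    refine le_trans ?_ hPB
    exact mul_le_mul_of_nonneg_right (by linarith) hA.le
  have hPB0 : 0 < Pe F.p B := lt_of_lt_of_le (by positivity) hPB'
  have himg := GF Hb H hSt hOk g q g2 hqv B Nn υ z Yb hBA hPB' hY
  obtain ⟨-, hfull⟩ := GT B hBA hPB'
  obtain ⟨c1, c2⟩ := GC Hb H hSt.ldp B hBA hPB'
    (fun l i => ⌊(if i = 0 then N l 0 else N l 1 + a) * J⌋₊) (fun _ _ => rfl)
  have eK : κ₁ / 16 * (X' - X) * J = K := by
    rw [hK, hv]
    ring
  rw [eK] at c1 c2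
  obtain ⟨za, hza⟩ := za_ex F A a
  have hcl := isLaw_cond F.isLaw hPB0
  have b0 := hcl.nonneg
  have hin : ∀ ω, 0 < Pool.Agent.H49.Ent.cond F.p B True ω → B ω := fun ω hω =>
    Pool.LA91.of_cond_pos hω
  rw [← hn] at hza y1 y2 y3 y4 c1 c2 himg ⊢
  obtain ⟨y, hy⟩ : ∃ y : F.Ω → (ℕ → ℕ → ℤ) × (ℕ × F.ζ), y = fun ω =>
    (jet2 F c n H 0 k N ω, F.W ω) := ⟨_, rfl⟩
  obtain ⟨Cy, hCy⟩ : ∃ Cy : LnT F → (Fin k × Fin (D₁ + 1 + 1) → ℤ) × (F.ζ × ℕ), Cy = fun s =>
    (vcG c k ⌊b * J⌋₊ n D₁ (fun l i => ⌊(if i = 0 then N l 0 else N l 1 + a) * J⌋₊) Hb s, s.2) :=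
    ⟨_, rfl⟩
  have hWy : ∀ ω ω', y ω = y ω' → F.T ω = F.T ω' ∧ F.Z ω = F.Z ω' := fun ω ω' ee => by
    rw [hy] at ee
    have e2 : F.W ω = F.W ω' := (Prod.ext_iff.1 ee).2
    exact ⟨(Prod.ext_iff.1 e2).1, (Prod.ext_iff.1 e2).2⟩
  have hpart : ∀ {S' T' : Type} (U : F.Ω → S') (V : F.Ω → T'),
      CH (Pool.Agent.H49.Ent.cond F.p B True) U V ≤
        2 * CH (Pool.Agent.H49.Ent.cond F.p A True) U V := fun U V => by
    have e1 := Pool.V0S.CH_part hA hBA (c₀ := 1 / 2) (by norm_num) hPB' U V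
    linarith
  have hpo : ∀ {S' T' : Type} (i : ℕ) (Zo : F.Ω → S') (Zp : F.Ω → T'), i ≤ D₁ + 1 →
      (∀ ω ω', A ω → A ω' → Zp ω = Zp ω' → Zo ω = Zo ω') →
      CH (Pool.Agent.H49.Ent.cond F.p A True)
        (oJ c k n i H fun l => sn (k + l) a + X' - i * a) Zo ≤ κ₀ * (X' - X) * J →
      CH (Pool.Agent.H49.Ent.cond F.p B True) (pO (pT c k n H) n g i) Zp ≤ κ₁ * q := by
    intro S' T' i Zo Zp hi hz hh
    have e1 := ch_via b0 (pO (pT c k n H) n g i)
      (oJ c k n i H fun l => sn (k + l) a + X' - i * a) Zp le_rfl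
    have e2 := p_of_o (Z := fun ω => ((oJ c k n i H fun l => sn (k + l) a + X' - i * a) ω, Zp ω))
      (g := g) (c := c) (k := k) (H := H) (N := fun l => sn (k + l) a + X' - i * a) (d := D₁ + 1 + j) hcl hnJ
      (by omega) (gf i) fun ω ω' _ _ ee => (Prod.ext_iff.1 ee).1
    have e3 : CH (Pool.Agent.H49.Ent.cond F.p B True)
        (oJ c k n i H fun l => sn (k + l) a + X' - i * a) Zp ≤
        CH (Pool.Agent.H49.Ent.cond F.p B True)
        (oJ c k n i H fun l => sn (k + l) a + X' - i * a) Zo :=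
      CH_mono_cond b0 fun ω ω' hω hω' ee => hz ω ω' (hBA ω (hin ω hω)) (hBA ω' (hin ω' hω')) ee
    have e4 := hpart (oJ c k n i H fun l => sn (k + l) a + X' - i * a) Zo
    have e5 : κ₀ * (X' - X) * J = κ₀ * v := by rw [hv]; ring
    rw [e5] at hh
    rw [← hcB] at e2
    linarith
  have ha0 := (isLaw_cond F.isLaw hA).nonneg
  have v1 : CH (Pool.Agent.H49.Ent.cond F.p B True) (pO (pT c k n H) n g j)
      (oJ c k n j H fun l => sn (k + l) a + X' - j * a) ≤ cB := by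
    rw [hcB]
    exact p_of_o (c := c) (k := k) (H := H) (N := fun l => sn (k + l) a + X' - j * a) hcl hnJ
      (by omega) (gf j) fun _ _ _ _ ee => ee
  have v2 : CH (Pool.Agent.H49.Ent.cond F.p B True)
      (oJ c k n j H fun l => sn (k + l) a + X' - j * a) (pO (pT c k n H) n g j) ≤ cB := by
    rw [hcB]
    exact o_of_p (c := c) (k := k) (H := H) (N := fun l => sn (k + l) a + X' - j * a) hcl hnJ
      (by omega) (gf j) fun _ _ _ _ ee => ee
  have v3 : CH (Pool.Agent.H49.Ent.cond F.p B True)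
      (oJ c k n j H fun l => sn (k + l) a + X - j * a)
      (fun ω l => pO (pT c k n H) n g j ω l / ((2 ^ q : ℕ) : ℤ)) ≤ cB := by
    rw [hcB]
    exact o_of_up (c := c) (k := k) (H := H) (N := fun l => sn (k + l) a + X - j * a) hcl hnJ
      (by omega) (gc j) fun _ _ _ _ ee l => congrFun ee l
  have v4 : CH (Pool.Agent.H49.Ent.cond F.p B True)
      (fun ω l => pO (pT c k n H) n g j ω l / ((2 ^ q : ℕ) : ℤ))
      (oJ c k n j H fun l => sn (k + l) a + X - j * a) ≤ cB := by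
    rw [hcB]
    exact up_of_o (c := c) (k := k) (H := H) (N := fun l => sn (k + l) a + X - j * a) hcl hnJ
      (by omega) (gc j) fun _ _ _ _ ee => ee
  have hMd : ∀ E : F.Ω → Prop, 0 < Pe F.p E → CH (Pool.Agent.H49.Ent.cond F.p E True)
      (oJ c k n j H fun l => sn (k + l) a + X' - j * a)
      (oJ c k n j H fun l => sn (k + l) a + X - j * a) ≤ M := fun E hE => by
    rw [hM]
    refine o_dig (isLaw_cond F.isLaw hE) fun l => ?_
    have e1 : (sn (k + l) a + X' - j * a) * J = (sn (k + l) a + X - j * a) * J + v := by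
      rw [hv]
      ring
    linarith
  have key := HS (F := F) (a := n) (X := fun ω => Pool.STR16.hT c k n H ω) (P := pT c k n H)
    (Fp := ptr F J) (z := z) (p := Pool.Agent.H49.Ent.cond F.p B True) (g := g) (q := q)
    (za := za) (zb := cR F A x) (Cy := Cy) (y := y) (Yb := Yb) hcl hnJ hqJ q6
    (fun s' i => pT_deg (fun s'' l => by
      obtain ⟨V, z₁, z₂, G₁, h3, h4⟩ := hSt.ldp.lt (k + l) (by omega) (by omega)
      rw [← h4]
      exact h3.deg _) s' i)
    (fun ω _ i => hT_eval c k hnJ H ω i)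
    (fun ω hω i => by
      have e1 := hY.hz ω (hin ω hω) i
      rw [← hn] at e1
      exact e1)
    (fun ω ω' hω hω' e1 _ _ => by
      rw [hza ω (hBA ω (hin ω hω)), hza ω' (hBA ω' (hin ω' hω'))]
      exact Pool.V0N.cR_mono hax x1 e1)
    (fun ω ω' hω hω' e1 e2 e3 => by
      rw [hza ω (hBA ω (hin ω hω)), hza ω' (hBA ω' (hin ω' hω'))] at e3
      rw [hCy] at e2
      obtain ⟨e7, e8⟩ : vcG c k ⌊b * J⌋₊ n D₁
          (fun l i => ⌊(if i = 0 then N l 0 else N l 1 + a) * J⌋₊) Hb (slam F n ω) =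
          vcG c k ⌊b * J⌋₊ n D₁
          (fun l i => ⌊(if i = 0 then N l 0 else N l 1 + a) * J⌋₊) Hb (slam F n ω') ∧
          (slam F n ω).2 = (slam F n ω').2 := Prod.ext_iff.1 e2
      refine hY.hY ω ω' (hin ω hω) (hin ω' hω') ?_ ?_ ?_ e3
      · rw [← hn]
        exact e1
      · rw [← hn]
        exact e8
      · rw [← hn]
        refine vcd_of (fun l i => ?_) e7
        obtain ⟨e5, e6, -⟩ := hN l l.2
        refine Nat.le_floor ((hNn l).trans (mul_le_mul_of_nonneg_right ?_ hJ0))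
        split_ifs <;> linarith)
    (by
      have e1 : κ₁ / 4 * (X' - X) * J = κ₁ / 4 * v := by rw [hv]; ring
      rw [e1] at hfull
      linarith)
    (fun ω ω' _ _ ee => hWy ω ω' ee)
    (by
      have e1 : CH (Pool.Agent.H49.Ent.cond F.p B True) (fun ω => Cy (slam F n ω)) y ≤
          CH (Pool.Agent.H49.Ent.cond F.p B True) (fun ω => vcG c k ⌊b * J⌋₊ n D₁
            (fun l i => ⌊(if i = 0 then N l 0 else N l 1 + a) * J⌋₊) Hb (slam F n ω)) y := by
        refine CH_mono_left b0 fun ω ω' _ _ hh => ?_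
        obtain ⟨e2, e3⟩ := Prod.ext_iff.1 hh
        obtain ⟨e4, e5⟩ := hWy ω ω' e3
        rw [hCy]
        refine Prod.ext e2 (Prod.ext e5 ?_)
        show F.T ω / 2 ^ (J - n) = F.T ω' / 2 ^ (J - n)
        rw [e4]
      rw [hy] at e1 ⊢
      linarith)
    (by
      have e1 : CH (Pool.Agent.H49.Ent.cond F.p B True) y
          (fun ω => (Cy (slam F n ω), (F.T ω, F.Z ω))) ≤
          CH (Pool.Agent.H49.Ent.cond F.p B True) y (fun ω => (vcG c k ⌊b * J⌋₊ n D₁
            (fun l i => ⌊(if i = 0 then N l 0 else N l 1 + a) * J⌋₊) Hb (slam F n ω),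
              (F.T ω, F.Z ω))) := by
        refine CH_mono_cond b0 fun ω ω' _ _ hh => ?_
        rw [hCy] at hh
        simp only [Prod.mk.injEq] at hh ⊢
        exact ⟨hh.1.1, hh.2⟩
      rw [hy] at e1 ⊢
      linarith)
    (fun i hi hij => hpo i _ _ hi (fun ω ω' _ _ ee => by
      rw [hy] at ee
      simp only [Prod.mk.injEq] at ee ⊢
      exact ⟨ee.2.1, ee.1, ee.2.2⟩) (y1 i hi hij))
    (fun i hi hij => hpo i _ _ hi (fun ω ω' hω hω' ee => by
      rw [hy] at ee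
      dsimp only at ee
      rw [hza ω hω, hza ω' hω'] at ee
      simp only [Prod.mk.injEq] at ee ⊢
      exact ⟨ee.2.1, ee.1, ee.2.2⟩) (y2 i hi hij))
    (by
      have e1 := ch_via b0 (fun ω l => pO (pT c k n H) n g j ω l / ((2 ^ q : ℕ) : ℤ))
        (oJ c k n j H fun l => sn (k + l) a + X - j * a) (fun ω => (cR F A x ω, y ω)) le_rfl
      have e2 : CH (Pool.Agent.H49.Ent.cond F.p B True)
          (fun ω l => pO (pT c k n H) n g j ω l / ((2 ^ q : ℕ) : ℤ))
          (fun ω => ((oJ c k n j H fun l => sn (k + l) a + X - j * a) ω,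
            (fun ω => (cR F A x ω, y ω)) ω)) ≤ cB :=
        (CH_mono_cond b0 fun _ _ _ _ ee => (Prod.ext_iff.1 ee).1).trans v4
      have e3 : CH (Pool.Agent.H49.Ent.cond F.p B True)
          (oJ c k n j H fun l => sn (k + l) a + X - j * a) (fun ω => (cR F A x ω, y ω)) ≤
          CH (Pool.Agent.H49.Ent.cond F.p B True)
          (oJ c k n j H fun l => sn (k + l) a + X - j * a)
          (fun ω => (jet2 F c n H 0 k N ω, (cR F A x ω, F.W ω))) :=
        CH_mono_cond b0 fun ω ω' _ _ ee => by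
          rw [hy] at ee
          simp only [Prod.mk.injEq] at ee ⊢
          exact ⟨ee.2.1, ee.1, ee.2.2⟩
      have e4 := hpart (oJ c k n j H fun l => sn (k + l) a + X - j * a)
        (fun ω => (jet2 F c n H 0 k N ω, (cR F A x ω, F.W ω)))
      have e5 : κ₀ * (X' - X) * J = κ₀ * v := by rw [hv]; ring
      rw [e5] at y3
      linarith)
    (by
      refine (tr_num F.isLaw hBA hA (ϖ := ϖ) (M := M) (c := cB) (e := κ₀ * v) w0.le (by linarith)
        hPB (o' := oJ c k n j H fun l => sn (k + l) a + X' - j * a)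
        (o := oJ c k n j H fun l => sn (k + l) a + X - j * a)
        (zb := fun ω => (cR F A x ω, y ω)) v1 v2 v3 v4 hMd ?_).trans ?_
      · have e1 : CH (Pool.Agent.H49.Ent.cond F.p A True)
            (oJ c k n j H fun l => sn (k + l) a + X' - j * a)
            (fun ω => ((oJ c k n j H fun l => sn (k + l) a + X - j * a) ω,
              (za (slam F n ω), y ω))) ≤
            CH (Pool.Agent.H49.Ent.cond F.p A True)
            (oJ c k n j H fun l => sn (k + l) a + X' - j * a)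
            (fun ω => ((oJ c k n j H fun l => sn (k + l) a + X - j * a) ω,
              (jet2 F c n H 0 k N ω, (cR F A a ω, F.W ω)))) :=
          CH_mono_cond ha0 fun ω ω' hω hω' ee => by
            rw [hy] at ee
            dsimp only at ee
            rw [hza ω (Pool.LA91.of_cond_pos hω), hza ω' (Pool.LA91.of_cond_pos hω')] at ee
            simp only [Prod.mk.injEq] at ee ⊢
            exact ⟨ee.1, ee.2.2.1, ee.2.1, ee.2.2.2⟩
        have e2 : CH (Pool.Agent.H49.Ent.cond F.p A True)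
            (oJ c k n j H fun l => sn (k + l) a + X' - j * a)
            (fun ω => ((oJ c k n j H fun l => sn (k + l) a + X - j * a) ω,
              (jet2 F c n H 0 k N ω, (cR F A x ω, F.W ω)))) ≤
            CH (Pool.Agent.H49.Ent.cond F.p A True)
            (oJ c k n j H fun l => sn (k + l) a + X' - j * a)
            (fun ω => ((oJ c k n j H fun l => sn (k + l) a + X - j * a) ω,
              (cR F A x ω, y ω))) :=
          CH_mono_cond ha0 fun ω ω' _ _ ee => by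
            rw [hy]
            simp only [Prod.mk.injEq] at ee ⊢
            exact ⟨ee.1, ee.2.2.1, ee.2.1, ee.2.2.2⟩
        have e5 : κ₀ * (X' - X) * J = κ₀ * v := by rw [hv]; ring
        rw [e5] at y4
        linarith
      · linarith)
    (fun l hl E e1 e2 => by
      have e3 := hrow l hl E (w1.trans e1) e2
      refine e3.trans ?_
      have e4 : (CR * φ + κ₁ / 8 * (X' - X)) * J ≤ κ₁ * q := by
        have e5 : (CR * φ + κ₁ / 8 * (X' - X)) * J ≤
            (κ₀ * (X' - X) + κ₁ / 8 * (X' - X)) * J :=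
          mul_le_mul_of_nonneg_right (by linarith) hJ0
        have e6 : (κ₀ * (X' - X) + κ₁ / 8 * (X' - X)) * J = κ₀ * v + κ₁ / 8 * v := by
          rw [hv]; ring
        linarith
      linarith)
    (fun u' hu' => by
      intro j' kL kP ka E d1 d2 d3 i hi G' f1 f2 f3
      have h4 := himg u' hu' j' kL kP ka E d1 d2 d3 i hi G' f1 f2 f3
      have e4 : (CF * φ + CF * κ + κ₁ / 16 * (X' - X)) * J ≤ κ₁ * q := by
        have e7 : CF * κ ≤ CF * (κ₀ * (X' - X)) := mul_le_mul_of_nonneg_left hκ hCF0.le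
        have e8 : CF * κ₀ * (X' - X) ≤ κ₁ / 16 * (X' - X) :=
          mul_le_mul_of_nonneg_right q1 d0.le
        have e5 : (CF * φ + CF * κ + κ₁ / 16 * (X' - X)) * J ≤
            (κ₀ * (X' - X) + κ₁ / 16 * (X' - X) + κ₁ / 16 * (X' - X)) * J :=
          mul_le_mul_of_nonneg_right (by linarith) hJ0
        have e6 : (κ₀ * (X' - X) + κ₁ / 16 * (X' - X) + κ₁ / 16 * (X' - X)) * J =
            κ₀ * v + κ₁ / 8 * v := by
          rw [hv]; ring
        linarith
      linarith)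
  have fin := tr_end F.isLaw hBA hA (ϖ := ϖ) (M := M) (c := cB) (e₀ := κ₀ * v) (e₁ := δ / 4 * q)
    (by linarith) hPB (o' := oJ c k n j H fun l => sn (k + l) a + X' - j * a)
    (o := oJ c k n j H fun l => sn (k + l) a + X - j * a) (p' := pO (pT c k n H) n g j)
    (zb := fun ω => (cR F A x ω, y ω)) v2 hMd (by
      have e2 : CH (Pool.Agent.H49.Ent.cond F.p A True)
          (oJ c k n j H fun l => sn (k + l) a + X - j * a) (fun ω => (cR F A x ω, y ω)) ≤
          CH (Pool.Agent.H49.Ent.cond F.p A True)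
          (oJ c k n j H fun l => sn (k + l) a + X - j * a)
          (fun ω => (jet2 F c n H 0 k N ω, (cR F A x ω, F.W ω))) :=
        CH_mono_cond ha0 fun ω ω' _ _ ee => by
          rw [hy] at ee
          simp only [Prod.mk.injEq] at ee ⊢
          exact ⟨ee.2.1, ee.1, ee.2.2⟩
      have e5 : κ₀ * (X' - X) * J = κ₀ * v := by rw [hv]; ring
      rw [e5] at y3
      linarith) key
  have e2 : CH (Pool.Agent.H49.Ent.cond F.p A True)
      (oJ c k n j H fun l => sn (k + l) a + X' - j * a)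
      (fun ω => (jet2 F c n H 0 k N ω, (cR F A x ω, F.W ω))) ≤
      CH (Pool.Agent.H49.Ent.cond F.p A True)
      (oJ c k n j H fun l => sn (k + l) a + X' - j * a) (fun ω => (cR F A x ω, y ω)) :=
    CH_mono_cond ha0 fun ω ω' _ _ ee => by
      rw [hy]
      simp only [Prod.mk.injEq] at ee ⊢
      exact ⟨ee.2.1, ee.1, ee.2.2⟩
  have e5 : δ * (X' - X) * J = δ * v := by rw [hv]; ring
  rw [e5]
  linarith

end Pool.STR73
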